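import Mathlib

namespace Pool.Agent.Results.MP_4717c3_al.GrigorchukUnit

/-- A ring `R` is `π`-UU if every unit `u` has a power `u ^ i`, `i ≥ 1`, in `1 + Nil(R)`. -/
def IsPiUU (R : Type) [Ring R] : Prop :=
  ∀ u : Rˣ, ∃ i : ℕ, 1 ≤ i ∧ IsNilpotent ((u : R) ^ i - 1)

/-- The four elements of the Klein four-group `{e, b, c, d}`. -/
inductive K : Type
  | e : K
  | b : K
  | c : K
  | d : K

/-- Multiplication of the Klein four-group. -/
def K.mul : K → K → K
  | .e, x => x
  | .b, .e => .b
  | .b, .b => .e
  | .b, .c => .d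
  | .b, .d => .c
  | .c, .e => .c
  | .c, .b => .d
  | .c, .c => .e
  | .c, .d => .b
  | .d, .e => .d
  | .d, .b => .c
  | .d, .c => .b
  | .d, .d => .e

/-- Does the left section of `k` flip? -/
def K.al : K → Bool
  | .e => false
  | .b => true
  | .c => true
  | .d => false

/-- The right section. -/
def K.be : K → K
  | .e => .e
  | .b => .c
  | .c => .d
  | .d => .b

/-- Weights. -/
def K.wt : K → ℕ
  | .e => 0
  | .b => 4
  | .c => 3
  | .d => 2

/-- Flip the first letter. -/
def flp : List Bool → List Bool
  | [] => []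
  | x :: l => (!x) :: l

/-- The action of the Klein four-group on finite binary words. -/
def act : K → List Bool → List Bool
  | _, [] => []
  | k, false :: l => false :: (if k.al then flp l else l)
  | k, true :: l => true :: act k.be l

theorem flp_flp (l : List Bool) : flp (flp l) = l := by
  cases l with
  | nil => rfl
  | cons x l => simp [flp]

theorem act_act (l : List Bool) : ∀ k k' : K, act k (act k' l) = act (k.mul k') l := by
  induction l with
  | nil => intro k k'; simp [act]
  | cons x l ih =>
    intro k k'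
    cases x with
    | false =>
      cases k <;> cases k' <;> simp [act, K.al, K.mul, flp_flp]
    | true =>
      simp only [act, ih]
      congr 1
      cases k <;> cases k' <;> rfl

theorem act_e (l : List Bool) : act .e l = l := by
  induction l with
  | nil => rfl
  | cons x l ih =>
    cases x with
    | false => simp [act, K.al]
    | true => simp [act, K.be, ih]

theorem mul_self_e (k : K) : k.mul k = .e := by cases k <;> rfl

/-- The generator `a`. -/
def A : Equiv.Perm (List Bool) := ⟨flp, flp, flp_flp, flp_flp⟩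

/-- The permutation given by an element of the Klein four-group. -/
def P (k : K) : Equiv.Perm (List Bool) :=
  ⟨act k, act k, fun l => by rw [act_act, mul_self_e, act_e],
    fun l => by rw [act_act, mul_self_e, act_e]⟩

theorem A_mul_A : A * A = 1 := by
  ext1 l; exact flp_flp l

theorem P_mul (k k' : K) : P k * P k' = P (k.mul k') := by
  ext1 l; exact act_act l k k'

theorem P_e : P .e = 1 := by
  ext1 l; exact act_e l

/-- Act by `p` below `false` and by `q` below `true`. -/
def pairFun (p q : Equiv.Perm (List Bool)) : List Bool → List Bool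
  | [] => []
  | false :: l => false :: p l
  | true :: l => true :: q l

theorem pairFun_pairFun (p q p' q' : Equiv.Perm (List Bool)) (l : List Bool) :
    pairFun p q (pairFun p' q' l) = pairFun (p * p') (q * q') l := by
  rcases l with _ | ⟨_ | _, l⟩ <;> rfl

theorem pairFun_one (l : List Bool) : pairFun 1 1 l = l := by
  rcases l with _ | ⟨_ | _, l⟩ <;> rfl

/-- The permutation acting by `p` below `false` and by `q` below `true`. -/
def pair (p q : Equiv.Perm (List Bool)) : Equiv.Perm (List Bool) :=
  ⟨pairFun p q, pairFun p⁻¹ q⁻¹,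
    fun l => by rw [pairFun_pairFun, inv_mul_cancel, inv_mul_cancel, pairFun_one],
    fun l => by rw [pairFun_pairFun, mul_inv_cancel, mul_inv_cancel, pairFun_one]⟩

theorem pair_mul (p q p' q' : Equiv.Perm (List Bool)) :
    pair p q * pair p' q' = pair (p * p') (q * q') := by
  ext1 l; exact pairFun_pairFun p q p' q' l

theorem pair_one : pair 1 1 = 1 := by
  ext1 l; exact pairFun_one l

theorem pair_pow (p q : Equiv.Perm (List Bool)) (n : ℕ) :
    pair p q ^ n = pair (p ^ n) (q ^ n) := by
  induction n with
  | zero => simp [pair_one]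
  | succ n ih => rw [pow_succ, ih, pair_mul, pow_succ, pow_succ]

theorem A_pair (p q : Equiv.Perm (List Bool)) : A * pair p q = pair q p * A := by
  ext1 l
  rcases l with _ | ⟨_ | _, l⟩ <;> rfl

theorem P_eq (k : K) : P k = pair (if k.al then A else 1) (P k.be) := by
  ext1 l
  rcases l with _ | ⟨_ | _, l⟩
  · cases k <;> rfl
  · cases k <;> rfl
  · cases k <;> rfl

/-- Letters: `none` is `a`, `some k` is an element of the Klein four-group. -/
def ev : Option K → Equiv.Perm (List Bool)
  | none => A
  | some k => P k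

/-- Weight of a letter. -/
def wtL : Option K → ℕ
  | none => 3
  | some k => k.wt

/-- Evaluation of a word. -/
def evW (w : List (Option K)) : Equiv.Perm (List Bool) := (w.map ev).prod

/-- Weight of a word. -/
def wtW (w : List (Option K)) : ℕ := (w.map wtL).sum

/-- The product `∏ a k`. -/
def W (ks : List K) : Equiv.Perm (List Bool) := (ks.map fun k => A * P k).prod

/-- Its weight. -/
def wtK (ks : List K) : ℕ := (ks.map fun k => 3 + k.wt).sum

/-- The left section of `k`, as a letter. -/
def alw (k : K) : Option K := if k.al then none else some .e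

/-- Words for the two sections of `W ks`. -/
def sec : List K → List (Option K) × List (Option K)
  | [] => ([], [])
  | k :: ks => (some k.be :: (sec ks).2, alw k :: (sec ks).1)

theorem ev_alw (k : K) : ev (alw k) = if k.al then A else 1 := by
  cases k <;> simp [ev, alw, K.al, P_e]

theorem evW_cons (x : Option K) (w : List (Option K)) : evW (x :: w) = ev x * evW w := by
  simp [evW]

theorem W_eq (ks : List K) :
    W ks = pair (evW (sec ks).1) (evW (sec ks).2) * A ^ ks.length := by
  induction ks with
  | nil => simp [W, sec, evW, pair_one]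
  | cons k ks ih =>
    have h1 : W (k :: ks) = A * P k * W ks := by simp [W]
    rw [h1, ih, P_eq, ← mul_assoc, mul_assoc A, pair_mul, A_pair, List.length_cons, pow_succ',
      ← mul_assoc]
    simp only [sec, evW_cons, ev_alw]
    rfl

theorem wt_sec (ks : List K) :
    wtW (sec ks).1 + wtW (sec ks).2 + ks.length ≤ wtK ks := by
  induction ks with
  | nil => simp [wtW, wtK, sec]
  | cons k ks ih =>
    have h : wtL (some k.be) + wtL (alw k) + 1 ≤ 3 + k.wt := by
      cases k <;> simp [wtL, alw, K.al, K.be, K.wt]
    have h2 : wtK (k :: ks) = 3 + k.wt + wtK ks := by simp [wtK]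
    have h3 : wtW (sec (k :: ks)).1 = wtL (some k.be) + wtW (sec ks).2 := by simp [wtW, sec]
    have h4 : wtW (sec (k :: ks)).2 = wtL (alw k) + wtW (sec ks).1 := by simp [wtW, sec]
    rw [h2, h3, h4, List.length_cons]
    omega

theorem wt_mul (k k' : K) : (k.mul k').wt ≤ k.wt + k'.wt := by
  cases k <;> cases k' <;> simp [K.mul, K.wt]

theorem exists_norm (w : List (Option K)) :
    ∃ (k : K) (ks : List K), evW w = P k * W ks ∧ k.wt + wtK ks ≤ wtW w := by
  induction w with
  | nil => exact ⟨.e, [], by simp [evW, W, P_e], by simp [K.wt, wtK]⟩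
  | cons x w ih =>
    obtain ⟨k, ks, h1, h2⟩ := ih
    cases x with
    | none =>
      refine ⟨.e, k :: ks, ?_, ?_⟩
      · rw [evW_cons, h1, P_e, one_mul]; simp [W, ev, mul_assoc]
      · have h3 : wtK (k :: ks) = 3 + k.wt + wtK ks := by simp [wtK]
        have h4 : wtW (none :: w) = 3 + wtW w := by simp [wtW, wtL]
        have h5 : K.e.wt = 0 := rfl
        rw [h3, h4, h5]; omega
    | some k' =>
      refine ⟨k'.mul k, ks, ?_, ?_⟩
      · rw [evW_cons, h1, ← P_mul, mul_assoc]; rfl
      · have h4 : wtW (some k' :: w) = k'.wt + wtW w := by simp [wtW, wtL]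
        have := wt_mul k' k
        omega

theorem fin_comm {x y : Equiv.Perm (List Bool)} (h : IsOfFinOrder (x * y)) :
    IsOfFinOrder (y * x) := by
  rw [isOfFinOrder_iff_pow_eq_one] at h ⊢
  obtain ⟨n, hn, h⟩ := h
  refine ⟨n, hn, ?_⟩
  have : y * x = y * (x * y) * y⁻¹ := by group
  rw [this, conj_pow, h]; group

theorem P_fin (k : K) : IsOfFinOrder (P k) := by
  rw [isOfFinOrder_iff_pow_eq_one]
  exact ⟨2, by norm_num, by rw [pow_two, P_mul, mul_self_e, P_e]⟩

theorem fin_of_norm {n : ℕ} (H : ∀ ks : List K, wtK ks ≤ n → IsOfFinOrder (W ks))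
    {k : K} {ks : List K} (h : k.wt + wtK ks ≤ n) : IsOfFinOrder (P k * W ks) := by
  rcases List.eq_nil_or_concat' ks with rfl | ⟨L, k', rfl⟩
  · have : W [] = 1 := by simp [W]
    rw [this, mul_one]; exact P_fin k
  · apply fin_comm
    have h1 : W (L ++ [k']) * P k = W (L ++ [k'.mul k]) := by
      simp [W, mul_assoc, P_mul]
    rw [h1]
    apply H
    have h2 : wtK (L ++ [k'.mul k]) = wtK L + (3 + (k'.mul k).wt) := by simp [wtK]
    have h3 : wtK (L ++ [k']) = wtK L + (3 + k'.wt) := by simp [wtK]
    have := wt_mul k' k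
    omega

theorem fin_evW {n : ℕ} (H : ∀ ks : List K, wtK ks ≤ n → IsOfFinOrder (W ks))
    {w : List (Option K)} (h : wtW w ≤ n) : IsOfFinOrder (evW w) := by
  obtain ⟨k, ks, h1, h2⟩ := exists_norm w
  rw [h1]
  exact fin_of_norm H (h2.trans h)

theorem pair_fin {p q : Equiv.Perm (List Bool)} (hp : IsOfFinOrder p) (hq : IsOfFinOrder q) :
    IsOfFinOrder (pair p q) := by
  rw [isOfFinOrder_iff_pow_eq_one] at *
  obtain ⟨m, hm, h1⟩ := hp
  obtain ⟨n, hn, h2⟩ := hq
  refine ⟨m * n, Nat.mul_pos hm hn, ?_⟩
  rw [pair_pow, pow_mul, h1, one_pow, mul_comm, pow_mul, h2, one_pow, pair_one]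

theorem W_fin (n : ℕ) : ∀ ks : List K, wtK ks ≤ n → IsOfFinOrder (W ks) := by
  induction n with
  | zero =>
    intro ks h
    cases ks with
    | nil => simp [W]
    | cons k ks => simp [wtK] at h
  | succ n ih =>
    intro ks h
    rcases eq_or_ne ks [] with rfl | hne
    · simp [W]
    · have hlen : 1 ≤ ks.length := List.length_pos_iff.mpr hne
      have hw := wt_sec ks
      have h0 : IsOfFinOrder (evW (sec ks).1) := fin_evW ih (by omega)
      have h1 : IsOfFinOrder (evW (sec ks).2) := fin_evW ih (by omega)
      rw [W_eq]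
      rcases Nat.even_or_odd' ks.length with ⟨m, hm | hm⟩
      · rw [hm, pow_mul, pow_two, A_mul_A, one_pow, mul_one]
        exact pair_fin h0 h1
      · rw [hm, pow_succ, pow_mul, pow_two, A_mul_A, one_pow, one_mul]
        have h01 : IsOfFinOrder (evW (sec ks).1 * evW (sec ks).2) := by
          have : evW ((sec ks).1 ++ (sec ks).2) = evW (sec ks).1 * evW (sec ks).2 := by
            simp [evW]
          rw [← this]
          apply fin_evW ih
          have : wtW ((sec ks).1 ++ (sec ks).2) = wtW (sec ks).1 + wtW (sec ks).2 := by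
            simp [wtW]
          omega
        have h10 := fin_comm h01
        have hsq : (pair (evW (sec ks).1) (evW (sec ks).2) * A) ^ 2 =
            pair (evW (sec ks).1 * evW (sec ks).2) (evW (sec ks).2 * evW (sec ks).1) := by
          rw [pow_two, mul_assoc, ← mul_assoc A, A_pair, mul_assoc, A_mul_A, mul_one, pair_mul]
        have h2 := pair_fin h01 h10
        rw [← hsq] at h2
        rw [isOfFinOrder_iff_pow_eq_one] at h2 ⊢
        obtain ⟨N, hN, hh⟩ := h2
        exact ⟨2 * N, by omega, by rw [pow_mul]; exact hh⟩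

theorem ev_inv (x : Option K) : (ev x)⁻¹ = ev x := by
  cases x with
  | none => exact inv_eq_of_mul_eq_one_left A_mul_A
  | some k => exact inv_eq_of_mul_eq_one_left (by
      show P k * P k = 1
      rw [P_mul, mul_self_e, P_e])

/-- The Grigorchuk group: all permutations of the set of finite binary words that are products
of the four permutations `A`, `P b`, `P c`, `P d`. -/
def Grig : Subgroup (Equiv.Perm (List Bool)) where
  carrier := Set.range evW
  mul_mem' := by
    rintro _ _ ⟨w, rfl⟩ ⟨w', rfl⟩
    exact ⟨w ++ w', by simp [evW]⟩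
  one_mem' := ⟨[], rfl⟩
  inv_mem' := by
    rintro _ ⟨w, rfl⟩
    refine ⟨w.reverse, ?_⟩
    induction w with
    | nil => simp [evW]
    | cons x w ih =>
      rw [evW_cons, mul_inv_rev, ← ih, ev_inv]
      simp [evW]

theorem Grig_torsion (g : Grig) : IsOfFinOrder g := by
  obtain ⟨g, w, rfl⟩ := g
  have h : IsOfFinOrder (evW w) := fin_evW (W_fin (wtW w)) le_rfl
  rw [isOfFinOrder_iff_pow_eq_one] at h ⊢
  obtain ⟨n, hn, h⟩ := h
  exact ⟨n, hn, Subtype.ext (by simpa using h)⟩

/-- The generator `a` of the group. -/
def gA : Grig := ⟨A, [none], by simp [evW, ev]⟩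

/-- The elements of the Klein four-group, in the group. -/
def gP (k : K) : Grig := ⟨P k, [some k], by simp [evW, ev]⟩

theorem gA_mul : gA * gA = 1 := Subtype.ext A_mul_A

theorem gP_mul (k k' : K) : gP k * gP k' = gP (k.mul k') := Subtype.ext (P_mul k k')

theorem gP_e : gP .e = 1 := Subtype.ext P_e

/-- The permutation `t` that the group ring element `(b + c + d - 1) / 2` induces. -/
def t : List Bool → List Bool
  | [] => []
  | false :: l => false :: flp l
  | true :: l => true :: t l

theorem act_cases (l : List Bool) :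
    (act .b l = t l ∧ act .c l = t l ∧ act .d l = l) ∨
    (act .b l = t l ∧ act .c l = l ∧ act .d l = t l) ∨
    (act .b l = l ∧ act .c l = t l ∧ act .d l = t l) := by
  induction l with
  | nil => left; exact ⟨rfl, rfl, rfl⟩
  | cons x l ih =>
    cases x with
    | false => left; exact ⟨rfl, rfl, rfl⟩
    | true =>
      rcases ih with ⟨h1, h2, h3⟩ | ⟨h1, h2, h3⟩ | ⟨h1, h2, h3⟩
      · right; left
        simp [act, K.be, t, h1, h2, h3]
      · right; right
        simp [act, K.be, t, h1, h2, h3]
      · left
        simp [act, K.be, t, h1, h2, h3]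

/-- The composite of `t` and the flip. -/
def T (l : List Bool) : List Bool := flp (t l)

theorem T_order (N : ℕ) : ∀ m : ℕ,
    T^[m] (List.replicate N true) = List.replicate N true → 2 ^ N ∣ m := by
  have key : ∀ (m : ℕ) (l : List Bool), T^[2 * m] (true :: l) = true :: T^[m] l := by
    intro m
    induction m with
    | zero => intro l; rfl
    | succ m ih =>
      intro l
      have : 2 * (m + 1) = 2 * m + 1 + 1 := by ring
      rw [this, Function.iterate_succ_apply', Function.iterate_succ_apply', ih,
        Function.iterate_succ_apply']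
      rfl
  induction N with
  | zero => intro m _; simp
  | succ N ih =>
    intro m hm
    rw [List.replicate_succ] at hm
    rcases Nat.even_or_odd' m with ⟨m', h | h⟩
    · subst h
      rw [key] at hm
      have := ih m' (List.cons.inj hm).2
      rw [pow_succ, mul_comm]
      exact Nat.mul_dvd_mul_left 2 this
    · subst h
      rw [Function.iterate_succ_apply', key] at hm
      exact absurd (List.cons.inj hm).1 (by decide)

section ring

variable (F : Type) [Field F]

/-- Group elements in the group ring. -/
noncomputable def o (g : Grig) : MonoidAlgebra F Grig := MonoidAlgebra.of F Grig g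

/-- The element `(b + c + d - 1) / 2`. -/
noncomputable def tau : MonoidAlgebra F Grig :=
  (2 : F)⁻¹ • (o F (gP .b) + o F (gP .c) + o F (gP .d) - 1)

theorem o_mul (g h : Grig) : o F g * o F h = o F (g * h) := by
  simp [o]

theorem o_one : o F 1 = 1 := by simp [o, MonoidAlgebra.one_def]

theorem tau_tau (h2 : (2 : F) ≠ 0) : tau F * tau F = 1 := by
  have h : (o F (gP .b) + o F (gP .c) + o F (gP .d) - 1) *
      (o F (gP .b) + o F (gP .c) + o F (gP .d) - 1) = (4 : F) • 1 := by
    simp only [mul_add, add_mul, mul_sub, sub_mul, mul_one, one_mul, o_mul, gP_mul, K.mul, gP_e,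
      o_one]
    have : (4 : F) • (1 : MonoidAlgebra F Grig) = 1 + 1 + 1 + 1 := by
      have : (4 : F) = 1 + 1 + 1 + 1 := by norm_num
      rw [this, add_smul, add_smul, add_smul, one_smul]
    rw [this]
    abel
  unfold tau
  rw [smul_mul_smul_comm, h, smul_smul]
  have : (2 : F)⁻¹ * 2⁻¹ * 4 = 1 := by
    field_simp
    norm_num
  rw [this, one_smul]

/-- The unit `a (b + c + d - 1) / 2`. -/
noncomputable def uu (h2 : (2 : F) ≠ 0) : (MonoidAlgebra F Grig)ˣ where
  val := o F gA * tau F
  inv := tau F * o F gA
  val_inv := by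
    rw [mul_assoc, ← mul_assoc (tau F), tau_tau F h2, one_mul, o_mul, gA_mul, o_one]
  inv_val := by
    rw [mul_assoc, ← mul_assoc (o F gA), o_mul, gA_mul, o_one, one_mul, tau_tau F h2]

/-- The permutation representation of the group on functions on finite binary words. -/
noncomputable def repn : Grig →* Module.End F (List Bool →₀ F) where
  toFun g := Finsupp.lmapDomain F F g.1
  map_one' := by
    apply LinearMap.ext
    intro x
    rw [Finsupp.lmapDomain_apply, Module.End.one_apply]
    exact Finsupp.mapDomain_id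
  map_mul' g h := by
    apply LinearMap.ext
    intro x
    simp only [Finsupp.lmapDomain_apply, Module.End.mul_apply]
    rw [← Finsupp.mapDomain_comp]
    rfl

/-- The permutation representation of the group ring on finite binary words. -/
noncomputable def rho : MonoidAlgebra F Grig →ₐ[F] Module.End F (List Bool →₀ F) :=
  MonoidAlgebra.lift F _ _ (repn F)

theorem rho_o (g : Grig) (l : List Bool) :
    rho F (o F g) (Finsupp.single l 1) = Finsupp.single (g.1 l) 1 := by
  unfold rho o
  rw [MonoidAlgebra.lift_of]
  exact Finsupp.mapDomain_single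

theorem rho_tau (h2 : (2 : F) ≠ 0) (l : List Bool) :
    rho F (tau F) (Finsupp.single l 1) = Finsupp.single (t l) 1 := by
  unfold tau
  rw [map_smul, map_sub, map_add, map_add, map_one, LinearMap.smul_apply, LinearMap.sub_apply,
    LinearMap.add_apply, LinearMap.add_apply, rho_o, rho_o, rho_o]
  have h : ∀ x y : List Bool →₀ F, x + x + y - y = (2 : F) • x := by
    intro x y; rw [two_smul]; abel
  have h' : ∀ x y : List Bool →₀ F, x + y + x - y = (2 : F) • x := by
    intro x y; rw [two_smul]; abel
  have h'' : ∀ x y : List Bool →₀ F, y + x + x - y = (2 : F) • x := by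
    intro x y; rw [two_smul]; abel
  have hb : (gP .b).1 l = act .b l := rfl
  have hc : (gP .c).1 l = act .c l := rfl
  have hd : (gP .d).1 l = act .d l := rfl
  rw [hb, hc, hd]
  rw [Module.End.one_apply]
  rcases act_cases l with ⟨h1, h2', h3⟩ | ⟨h1, h2', h3⟩ | ⟨h1, h2', h3⟩
  · rw [h1, h2', h3, h, smul_smul, inv_mul_cancel₀ h2, one_smul]
  · rw [h1, h2', h3, h', smul_smul, inv_mul_cancel₀ h2, one_smul]
  · rw [h1, h2', h3, h'', smul_smul, inv_mul_cancel₀ h2, one_smul]

theorem rho_uu (h2 : (2 : F) ≠ 0) (l : List Bool) :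
    rho F (uu F h2 : MonoidAlgebra F Grig) (Finsupp.single l 1) = Finsupp.single (T l) 1 := by
  show rho F (o F gA * tau F) _ = _
  rw [map_mul, Module.End.mul_apply, rho_tau F h2, rho_o]
  rfl

theorem rho_uu_pow (h2 : (2 : F) ≠ 0) (n : ℕ) (l : List Bool) :
    rho F ((uu F h2 : MonoidAlgebra F Grig) ^ n) (Finsupp.single l 1) =
      Finsupp.single (T^[n] l) 1 := by
  induction n generalizing l with
  | zero => simp
  | succ n ih =>
    rw [pow_succ, map_mul, Module.End.mul_apply, rho_uu, ih, Function.iterate_succ_apply]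

theorem uu_pow_ne (h2 : (2 : F) ≠ 0) (n : ℕ) (hn : 1 ≤ n) :
    (uu F h2 : MonoidAlgebra F Grig) ^ n ≠ 1 := by
  intro h
  have h1 := rho_uu_pow F h2 n (List.replicate n true)
  rw [h, map_one, Module.End.one_apply] at h1
  have h3 : T^[n] (List.replicate n true) = List.replicate n true :=
    (Finsupp.single_left_injective (one_ne_zero) h1).symm
  have h4 := Nat.le_of_dvd hn (T_order n n h3)
  exact absurd h4 (not_le.mpr Nat.lt_two_pow_self)

end ring

theorem result : ∃ (G : Type) (_ : Group G), (∀ g : G, IsOfFinOrder g) ∧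
    ∀ (p : ℕ) [Fact p.Prime], p ≠ 2 → ∀ (F : Type) [Field F] [CharP F p],
      ∃ u : (MonoidAlgebra F G)ˣ, ∀ i : ℕ, 1 ≤ i →
        ¬ IsNilpotent ((u : MonoidAlgebra F G) ^ i - 1) := by
  refine ⟨Grig, inferInstance, Grig_torsion, ?_⟩
  intro p hp hp2 F _ _
  have h2 : (2 : F) ≠ 0 := by
    intro h
    have h' : ((2 : ℕ) : F) = 0 := by exact_mod_cast h
    rw [CharP.cast_eq_zero_iff F p] at h'
    exact hp2 ((Nat.prime_dvd_prime_iff_eq hp.out Nat.prime_two).mp h')
  refine ⟨uu F h2, ?_⟩
  intro i hi ⟨n, hn⟩
  have : CharP (MonoidAlgebra F Grig) p :=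
    charP_of_injective_algebraMap (algebraMap F (MonoidAlgebra F Grig)).injective p
  have hle : n ≤ p ^ n := (Nat.lt_pow_self hp.out.one_lt).le
  have h3 : ((uu F h2 : MonoidAlgebra F Grig) ^ i - 1) ^ (p ^ n) = 0 :=
    pow_eq_zero_of_le hle hn
  rw [sub_pow_char_pow_of_commute _ _ (Commute.one_right _), one_pow, ← pow_mul] at h3
  exact uu_pow_ne F h2 (i * p ^ n)
    (Nat.mul_pos hi (pow_pos hp.out.pos n)) (sub_eq_zero.mp h3)

end Pool.Agent.Results.MP_4717c3_al.GrigorchukUnit
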